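import Pool.Agent.Helper29_CH.Sharp
import Pool.Agent.Helper93_CHG.Main

/-!
The sharp form of the bound `21 / 62` with weights, and the triangle case of the
Caccetta-Haggkvist conjecture for all digraphs with at most 62 vertices.
-/

set_option autoImplicit false

open scoped Classical

namespace Pool.Agent.Helper29CH

theorem bound62 : Bound 21 62 := by
  intro V _ _ E hE
  have := Pool.Agent.CHG.main V E hE.1 hE.2
  obtain ⟨u, hu⟩ := this
  exact ⟨u, hu⟩

end Pool.Agent.Helper29CH
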