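import Pool.Agent.Helper29_CH.Bound62

/-!
Weighted sharp form: if every vertex `v` of positive weight has
`62 w(N v) > 21 (w(V) - w v)`, then there is a directed cycle of length at most three.
With all weights equal to one: all outdegrees larger than `21 (n - 1) / 62` force such a cycle;
in particular outdegrees at least `n / 3` do for all `n ≤ 62`.
-/

set_option autoImplicit false

open scoped Classical

namespace Pool.Agent.Helper29CH

theorem final (V : Type) [Fintype V] (E : V → V → Prop) (w : V → ℝ) (h0 : ∀ v, 0 ≤ w v)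
    (hw : 0 < ∑ v, w v)
    (hdeg : ∀ v, 0 < w v →
      21 * (∑ u, w u - w v) < 62 * ∑ u ∈ Finset.univ.filter (fun u => E v u), w u) :
    (∃ u v, E u v ∧ E v u) ∨ (∃ u v t, E u v ∧ E v t ∧ E t u) := by
  by_contra hcon
  rw [not_or] at hcon
  obtain ⟨hA, hB⟩ := hcon
  have hE : Free E := ⟨fun u v a b => hA ⟨u, v, a, b⟩, fun u v t a b c => hB ⟨u, v, t, a, b, c⟩⟩
  obtain ⟨x, hx, hle⟩ := sharpR bound62 V E hE w h0 hw
  have := hdeg x hx
  push_cast at hle
  linarith

/-- The conjecture for at most 62 vertices. -/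
theorem small (n : ℕ) (hn : 0 < n) (hn' : n ≤ 62) (G : Digraph (Fin n))
    (hdeg : ∀ v, n ≤ 3 * (Finset.univ.filter (fun w => G.Adj v w)).card) :
    (∃ u v, G.Adj u v ∧ G.Adj v u) ∨ (∃ u v w, G.Adj u v ∧ G.Adj v w ∧ G.Adj w u) := by
  refine final (Fin n) G.Adj (fun _ => 1) (fun _ => zero_le_one) ?_ ?_
  · simp only [Finset.sum_const, Finset.card_univ, Fintype.card_fin, nsmul_eq_mul, mul_one]
    exact_mod_cast hn
  · intro v _
    simp only [Finset.sum_const, Finset.card_univ, Fintype.card_fin, nsmul_eq_mul, mul_one]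
    have h1 : (n : ℝ) ≤ 3 * ((Finset.univ.filter (fun w => G.Adj v w)).card : ℝ) := by
      exact_mod_cast hdeg v
    have h2 : (n : ℝ) ≤ 62 := by exact_mod_cast hn'
    linarith

end Pool.Agent.Helper29CH
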