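import Mathlib

/-!
From an asymptotic bound to the sharp weighted bound: if every nonempty finite digraph without
cycles of length at most three has a vertex with `b * outdegree < a * n`, then for all weights
there is a vertex `x` of positive weight with `b * w(N x) ≤ a * (w(V) - w x)`.
Proof by iterated substitution.
-/

set_option autoImplicit false

open scoped Classical

namespace Pool.Agent.Helper29CH

/-- No cycles of length at most three. -/
def Free {V : Type} (E : V → V → Prop) : Prop :=
  (∀ u v, E u v → ¬ E v u) ∧ (∀ u v w, E u v → E v w → ¬ E w u)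

/-- Every finite digraph without cycles of length at most three has outdegree `< a n / b`. -/
def Bound (a b : ℕ) : Prop :=
  ∀ (V : Type) [Fintype V] [Nonempty V] (E : V → V → Prop), Free E →
    ∃ u : V, b * (Finset.univ.filter (fun v => E u v)).card < a * Fintype.card V

/-- The edges of the substitution. -/
def SubE {V H : Type} (E : V → V → Prop) (F : H → H → Prop) (w : V → ℕ)
    (p q : (x : V) × (Fin (w x) × H)) : Prop :=
  E p.1 q.1 ∨ (p.1 = q.1 ∧ F p.2.2 q.2.2)

theorem free_sub {V H : Type} {E : V → V → Prop} {F : H → H → Prop} (w : V → ℕ)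
    (hE : Free E) (hF : Free F) : Free (SubE E F w) := by
  have irr : ∀ x, ¬ E x x := fun x h => hE.1 x x h h
  constructor
  · rintro ⟨x, i, h⟩ ⟨y, j, g⟩ h1 h2
    simp only [SubE] at h1 h2
    rcases h1 with h1 | ⟨h1, h1'⟩
    · rcases h2 with h2 | ⟨h2, -⟩
      · exact hE.1 _ _ h1 h2
      · subst h2; exact irr _ h1
    · subst h1
      rcases h2 with h2 | ⟨-, h2⟩
      · exact irr _ h2
      · exact hF.1 _ _ h1' h2
  · rintro ⟨x, i, h⟩ ⟨y, j, g⟩ ⟨z, l, f⟩ h1 h2 h3
    simp only [SubE] at h1 h2 h3
    rcases h1 with h1 | ⟨h1, h1'⟩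
    · rcases h2 with h2 | ⟨h2, -⟩
      · rcases h3 with h3 | ⟨h3, -⟩
        · exact hE.2 _ _ _ h1 h2 h3
        · subst h3; exact hE.1 _ _ h1 h2
      · subst h2
        rcases h3 with h3 | ⟨h3, -⟩
        · exact hE.1 _ _ h1 h3
        · subst h3; exact irr _ h1
    · subst h1
      rcases h2 with h2 | ⟨h2, h2'⟩
      · rcases h3 with h3 | ⟨h3, -⟩
        · exact hE.1 _ _ h2 h3
        · subst h3; exact irr _ h2
      · subst h2
        rcases h3 with h3 | ⟨-, h3'⟩
        · exact irr _ h3
        · exact hF.2 _ _ _ h1' h2' h3'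

theorem card_sub {V H : Type} [Fintype V] [Fintype H] (w : V → ℕ) :
    Fintype.card ((x : V) × (Fin (w x) × H)) = (∑ x, w x) * Fintype.card H := by
  rw [Fintype.card_sigma, Finset.sum_mul]
  exact Finset.sum_congr rfl (fun x _ => by rw [Fintype.card_prod, Fintype.card_fin])

theorem out_sub {V H : Type} [Fintype V] [Fintype H] {E : V → V → Prop} (hE : ∀ x, ¬ E x x)
    (F : H → H → Prop) (w : V → ℕ) (x : V) (i : Fin (w x)) (h : H) :
    (Finset.univ.filter (fun q => SubE E F w ⟨x, i, h⟩ q)).card
      = (∑ y ∈ Finset.univ.filter (fun y => E x y), w y) * Fintype.card H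
        + w x * (Finset.univ.filter (fun g => F h g)).card := by
  rw [Finset.card_filter, Fintype.sum_sigma]
  have key : ∀ y : V, (∑ q : Fin (w y) × H, if SubE E F w ⟨x, i, h⟩ ⟨y, q⟩ then 1 else 0)
      = (if E x y then w y * Fintype.card H else 0)
        + (if x = y then w y * (Finset.univ.filter (fun g => F h g)).card else 0) := by
    intro y
    by_cases hxy : E x y
    · have hne : x ≠ y := fun h => hE x (by rw [← h] at hxy; exact hxy)
      simp [SubE, hxy, hne]
    · by_cases he : x = y
      · subst he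
        simp only [SubE, hxy, false_or, true_and, if_false, zero_add, if_true]
        rw [Fintype.sum_prod_type]
        have e : ∀ j : Fin (w x), (∑ g : H, if F h ((j, g) : Fin (w x) × H).2 then 1 else 0)
            = (Finset.univ.filter (fun g => F h g)).card := by
          intro j
          rw [Finset.card_filter]
        rw [Finset.sum_congr rfl (fun j _ => e j), Finset.sum_const, Finset.card_univ,
          Fintype.card_fin, smul_eq_mul]
      · simp [SubE, hxy, he]
  rw [Finset.sum_congr rfl (fun y _ => key y), Finset.sum_add_distrib]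
  congr 1
  · rw [Finset.sum_mul, Finset.sum_filter]
  · simp

/-- The sharp form for weights in the natural numbers. -/
theorem sharpN {a b : ℕ} (hb : Bound a b) (V : Type) [Fintype V] (E : V → V → Prop)
    (hE : Free E) (w : V → ℕ) (hw : 0 < ∑ x, w x) :
    ∃ x, 0 < w x ∧
      b * (∑ y ∈ Finset.univ.filter (fun y => E x y), w y) + a * w x ≤ a * ∑ y, w y := by
  by_contra hcon
  push Not at hcon
  set W := ∑ x, w x with hW
  have irr : ∀ x, ¬ E x x := fun x h => hE.1 x x h h
  obtain ⟨x0, -, hx0⟩ : ∃ x ∈ Finset.univ, 0 < w x := by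
    by_contra hc
    push Not at hc
    have : W = 0 := Finset.sum_eq_zero (fun x hx => Nat.le_zero.1 (hc x hx))
    omega
  have step : ∀ k, k ≤ a * W → ∃ (H : Type) (_ : Fintype H) (_ : Nonempty H) (F : H → H → Prop),
      Free F ∧ ∀ u, k * Fintype.card H ≤ b * W * (Finset.univ.filter (fun v => F u v)).card := by
    intro k
    induction k with
    | zero =>
      intro _
      exact ⟨Unit, inferInstance, inferInstance, fun _ _ => False,
        ⟨fun _ _ h => h.elim, fun _ _ _ h => h.elim⟩, fun u => by simp⟩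
    | succ k ih =>
      intro hk
      obtain ⟨H, _, _, F, hF, hd⟩ := ih (by omega)
      refine ⟨(x : V) × (Fin (w x) × H), inferInstance,
        ⟨⟨x0, ⟨0, hx0⟩, Classical.arbitrary H⟩⟩, SubE E F w, free_sub w hE hF, ?_⟩
      rintro ⟨x, i, h⟩
      rw [card_sub, out_sub irr]
      have hwx : 0 < w x := lt_of_le_of_lt (Nat.zero_le _) i.isLt
      have h1 := hcon x hwx
      have h2 := hd h
      have h3 : w x ≤ W := Finset.single_le_sum (fun y _ => Nat.zero_le (w y)) (Finset.mem_univ x)
      set D := ∑ y ∈ Finset.univ.filter (fun y => E x y), w y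
      set N := Fintype.card H
      set d := (Finset.univ.filter (fun g => F h g)).card
      rw [← hW]
      obtain ⟨s, hs⟩ := Nat.exists_eq_add_of_le h3
      obtain ⟨t, ht⟩ := Nat.exists_eq_add_of_le hk
      have h1' : a * s + 1 ≤ b * D := by
        have : a * W = a * w x + a * s := by rw [hs, Nat.mul_add]
        omega
      have e1 : b * W * (D * N + w x * d) = W * N * (b * D) + w x * (b * W * d) := by ring
      rw [e1]
      have e2 : W * N * (a * s + 1) + w x * (k * N) ≤ W * N * (b * D) + w x * (b * W * d) :=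
        Nat.add_le_add (Nat.mul_le_mul_left _ h1') (Nat.mul_le_mul_left _ h2)
      refine le_trans ?_ e2
      have e3 : W * N * (a * s + 1) + w x * (k * N) = (k + 1) * (W * N) + (1 + t) * s * N := by
        have : W * N * (a * s + 1) = (a * W) * s * N + W * N := by ring
        rw [this, ht]
        have e4 : (k + 1) * (W * N) = k * (w x + s) * N + W * N := by rw [← hs]; ring
        rw [e4]
        ring
      rw [e3]
      exact Nat.le_add_right _ _
  obtain ⟨H, _, _, F, hF, hd⟩ := step (a * W) le_rfl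
  obtain ⟨u, hu⟩ := hb H F hF
  have h1 := hd u
  have h2 : W * (a * Fintype.card H) ≤ W * (b * (Finset.univ.filter (fun v => F u v)).card) := by
    calc W * (a * Fintype.card H) = a * W * Fintype.card H := by ring
      _ ≤ _ := h1
      _ = _ := by ring
  have h3 := Nat.le_of_mul_le_mul_left h2 hw
  omega

/-- The sharp form for real weights. -/
theorem sharpR {a b : ℕ} (hb : Bound a b) (V : Type) [Fintype V] (E : V → V → Prop)
    (hE : Free E) (w : V → ℝ) (h0 : ∀ x, 0 ≤ w x) (hw : 0 < ∑ x, w x) :
    ∃ x, 0 < w x ∧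
      b * (∑ y ∈ Finset.univ.filter (fun y => E x y), w y) ≤ a * (∑ y, w y - w x) := by
  by_contra hcon
  push Not at hcon
  set gap : V → ℝ := fun x =>
    b * (∑ y ∈ Finset.univ.filter (fun y => E x y), w y) - a * (∑ y, w y - w x) with hgap
  have hpos : ∀ x, 0 < w x → 0 < gap x := fun x hx => by
    have := hcon x hx
    simp only [hgap]
    linarith
  -- choose a large scale
  have hM : ∀ x : V, ∃ M : ℕ, 0 < w x → 1 < M * w x ∧ b * Fintype.card V < M * gap x := by
    intro x
    by_cases hx : 0 < w x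
    · obtain ⟨M1, h1⟩ := exists_nat_gt (1 / w x)
      obtain ⟨M2, h2⟩ := exists_nat_gt ((b * Fintype.card V : ℝ) / gap x)
      refine ⟨M1 + M2, fun _ => ⟨?_, ?_⟩⟩
      · rw [div_lt_iff₀ hx] at h1
        push_cast
        nlinarith [mul_nonneg (Nat.cast_nonneg (α := ℝ) M2) hx.le]
      · rw [div_lt_iff₀ (hpos x hx)] at h2
        push_cast
        nlinarith [mul_nonneg (Nat.cast_nonneg (α := ℝ) M1) (hpos x hx).le]
    · exact ⟨0, fun h => absurd h hx⟩
  choose Mf hMf using hM
  set M : ℕ := ∑ x, Mf x with hMdef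
  have hMx : ∀ x, 0 < w x → 1 < M * w x ∧ b * Fintype.card V < M * gap x := by
    intro x hx
    have h1 := hMf x hx
    have h2 : (Mf x : ℝ) ≤ M := by
      exact_mod_cast Finset.single_le_sum (f := Mf) (fun y _ => Nat.zero_le _) (Finset.mem_univ x)
    constructor
    · nlinarith [h1.1, mul_le_mul_of_nonneg_right h2 hx.le]
    · nlinarith [h1.2, mul_le_mul_of_nonneg_right h2 (hpos x hx).le]
  set v : V → ℕ := fun x => ⌊(M : ℝ) * w x⌋₊ with hv
  have hvle : ∀ x, (v x : ℝ) ≤ M * w x := fun x =>
    Nat.floor_le (mul_nonneg (Nat.cast_nonneg _) (h0 x))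
  have hvgt : ∀ x, (M : ℝ) * w x < v x + 1 := fun x => Nat.lt_floor_add_one _
  obtain ⟨x1, -, hx1⟩ : ∃ x ∈ Finset.univ, 0 < w x := by
    by_contra hc
    push Not at hc
    have : ∑ x, w x ≤ 0 := Finset.sum_nonpos (fun x hx => hc x hx)
    linarith
  have hv1 : 0 < v x1 := Nat.floor_pos.2 (hMx x1 hx1).1.le
  have hvs : 0 < ∑ x, v x :=
    lt_of_lt_of_le hv1 (Finset.single_le_sum (f := v) (fun y _ => Nat.zero_le _)
      (Finset.mem_univ x1))
  obtain ⟨x, hx, hle⟩ := sharpN hb V E hE v hvs
  have hwx : 0 < w x := by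
    by_contra hc
    have : w x = 0 := le_antisymm (not_lt.1 hc) (h0 x)
    have h2 := hvle x
    rw [this, mul_zero] at h2
    have : (1 : ℝ) ≤ v x := by exact_mod_cast hx
    linarith
  have hle' : (b : ℝ) * (∑ y ∈ Finset.univ.filter (fun y => E x y), (v y : ℝ)) + a * v x
      ≤ a * ∑ y, (v y : ℝ) := by exact_mod_cast hle
  have hsplit : ∀ f : V → ℝ, ∑ y, f y - f x = ∑ y ∈ Finset.univ.erase x, f y := by
    intro f
    rw [← Finset.add_sum_erase _ f (Finset.mem_univ x)]
    ring
  have h1 : ∑ y ∈ Finset.univ.erase x, (v y : ℝ) ≤ M * ∑ y ∈ Finset.univ.erase x, w y := by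
    rw [Finset.mul_sum]
    exact Finset.sum_le_sum (fun y _ => hvle y)
  have h2 : (M : ℝ) * (∑ y ∈ Finset.univ.filter (fun y => E x y), w y) - Fintype.card V
      ≤ ∑ y ∈ Finset.univ.filter (fun y => E x y), (v y : ℝ) := by
    rw [Finset.mul_sum]
    have : ∑ y ∈ Finset.univ.filter (fun y => E x y), (M : ℝ) * w y
        ≤ ∑ y ∈ Finset.univ.filter (fun y => E x y), ((v y : ℝ) + 1) :=
      Finset.sum_le_sum (fun y _ => (hvgt y).le)
    rw [Finset.sum_add_distrib] at this
    simp only [Finset.sum_const, nsmul_eq_mul, mul_one] at this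
    have hc : ((Finset.univ.filter (fun y => E x y)).card : ℝ) ≤ Fintype.card V := by
      exact_mod_cast (Finset.card_le_univ _)
    linarith
  have h3 := (hMx x hwx).2
  have h4 := hsplit w
  have h5 := hsplit (fun y => (v y : ℝ))
  simp only [hgap, h4] at h3
  have ha : (0 : ℝ) ≤ a := Nat.cast_nonneg _
  have hbn : (0 : ℝ) ≤ b := Nat.cast_nonneg _
  have h6 := mul_le_mul_of_nonneg_left h1 ha
  have h7 := mul_le_mul_of_nonneg_left h2 hbn
  have h8 : (a : ℝ) * (∑ y, (v y : ℝ) - v x) = a * ∑ y ∈ Finset.univ.erase x, (v y : ℝ) := by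
    rw [h5]
  nlinarith

end Pool.Agent.Helper29CH
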